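import Mathlib

set_option autoImplicit false

/-! Codes for oracle functionals, with the use principle. -/

namespace Pool.Agent.Run7.h930.MB

/-- codes of oracle machines -/
inductive OC : Type
  | zero : OC
  | succ : OC
  | left : OC
  | right : OC
  | oracle : OC
  | pair : OC → OC → OC
  | comp : OC → OC → OC
  | prec : OC → OC → OC
  | rfind : OC → OC
  deriving Countable

/-- evaluation with oracle `z` -/
def ev (z : ℕ → ℕ) : OC → (ℕ →. ℕ)
  | OC.zero => fun _ => 0
  | OC.succ => Nat.succ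
  | OC.left => fun n => (Nat.unpair n).1
  | OC.right => fun n => (Nat.unpair n).2
  | OC.oracle => PFun.lift z
  | OC.pair f h => fun n => (Nat.pair <$> ev z f n <*> ev z h n)
  | OC.comp f h => fun n => ev z h n >>= ev z f
  | OC.prec f h => fun p =>
        let (a, n) := Nat.unpair p
        n.rec (ev z f a) fun y IH => do
          let i ← IH
          ev z h (Nat.pair a (Nat.pair y i))
  | OC.rfind f => fun a => Nat.rfind fun n => (fun m => m = 0) <$> ev z f (Nat.pair a n)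

theorem exists_code {z : ℕ → ℕ} {f : ℕ →. ℕ} (hf : Nat.RecursiveIn {PFun.lift z} f) :
    ∃ c, ev z c = f := by
  induction hf with
  | zero => exact ⟨OC.zero, rfl⟩
  | succ => exact ⟨OC.succ, rfl⟩
  | left => exact ⟨OC.left, rfl⟩
  | right => exact ⟨OC.right, rfl⟩
  | oracle g hg => exact ⟨OC.oracle, by rw [Set.mem_singleton_iff.1 hg]; rfl⟩
  | pair _ _ ih1 ih2 =>
    obtain ⟨c, rfl⟩ := ih1
    obtain ⟨d, rfl⟩ := ih2
    exact ⟨OC.pair c d, rfl⟩
  | comp _ _ ih1 ih2 =>
    obtain ⟨c, rfl⟩ := ih1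
    obtain ⟨d, rfl⟩ := ih2
    exact ⟨OC.comp c d, rfl⟩
  | prec _ _ ih1 ih2 =>
    obtain ⟨c, rfl⟩ := ih1
    obtain ⟨d, rfl⟩ := ih2
    exact ⟨OC.prec c d, rfl⟩
  | rfind _ ih =>
    obtain ⟨c, rfl⟩ := ih
    exact ⟨OC.rfind c, rfl⟩

/-- agreement below `s` -/
def Agr (s : ℕ) (z z' : ℕ → ℕ) : Prop := ∀ i < s, z' i = z i

lemma Agr.mono {s t : ℕ} {z z' : ℕ → ℕ} (h : Agr t z z') (hst : s ≤ t) : Agr s z z' :=
  fun i hi => h i (lt_of_lt_of_le hi hst)

theorem use (z : ℕ → ℕ) (c : OC) : ∀ n y, y ∈ ev z c n →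
    ∃ s, ∀ z', Agr s z z' → y ∈ ev z' c n := by
  induction c with
  | zero => intro n y h; exact ⟨0, fun z' _ => h⟩
  | succ => intro n y h; exact ⟨0, fun z' _ => h⟩
  | left => intro n y h; exact ⟨0, fun z' _ => h⟩
  | right => intro n y h; exact ⟨0, fun z' _ => h⟩
  | oracle =>
    intro n y h
    refine ⟨n + 1, fun z' hz => ?_⟩
    have h1 : y ∈ PFun.lift z n := h
    show y ∈ PFun.lift z' n
    simp only [PFun.lift, Part.mem_some_iff] at h1 ⊢
    rw [hz n (Nat.lt_succ_self n)]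
    exact h1
  | pair c d ih1 ih2 =>
    intro n y h
    have h1 : y ∈ (Nat.pair <$> ev z c n <*> ev z d n) := h
    simp only [Seq.seq, Part.map_eq_map, Part.bind_eq_bind, Part.mem_bind_iff,
      Part.mem_map_iff] at h1
    obtain ⟨g, ⟨a, ha, rfl⟩, b, hb, rfl⟩ := h1
    obtain ⟨s1, hs1⟩ := ih1 n a ha
    obtain ⟨s2, hs2⟩ := ih2 n b hb
    refine ⟨max s1 s2, fun z' hz => ?_⟩
    show _ ∈ (Nat.pair <$> ev z' c n <*> ev z' d n)
    simp only [Seq.seq, Part.map_eq_map, Part.bind_eq_bind, Part.mem_bind_iff,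
      Part.mem_map_iff]
    exact ⟨_, ⟨a, hs1 z' (hz.mono (le_max_left _ _)), rfl⟩, b,
      hs2 z' (hz.mono (le_max_right _ _)), rfl⟩
  | comp c d ih1 ih2 =>
    intro n y h
    have h1 : y ∈ (ev z d n >>= ev z c) := h
    simp only [Part.bind_eq_bind, Part.mem_bind_iff] at h1
    obtain ⟨a, ha, hy⟩ := h1
    obtain ⟨s1, hs1⟩ := ih2 n a ha
    obtain ⟨s2, hs2⟩ := ih1 a y hy
    refine ⟨max s1 s2, fun z' hz => ?_⟩
    show y ∈ (ev z' d n >>= ev z' c)
    simp only [Part.bind_eq_bind, Part.mem_bind_iff]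
    exact ⟨a, hs1 z' (hz.mono (le_max_left _ _)), hs2 z' (hz.mono (le_max_right _ _))⟩
  | prec c d ih1 ih2 =>
    intro p
    have key : ∀ (a n y : ℕ), y ∈ (n.rec (ev z c a) (fun y IH => IH >>= fun i =>
          ev z d (Nat.pair a (Nat.pair y i))) : Part ℕ) →
        ∃ s, ∀ z', Agr s z z' → y ∈ (n.rec (ev z' c a) (fun y IH => IH >>= fun i =>
          ev z' d (Nat.pair a (Nat.pair y i))) : Part ℕ) := by
      intro a n
      induction n with
      | zero => intro y h; exact ih1 a y h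
      | succ n ihn =>
        intro y h
        simp only [Part.bind_eq_bind, Part.mem_bind_iff] at h
        obtain ⟨i, hi, hy⟩ := h
        simp only [Part.bind_eq_bind] at ihn
        obtain ⟨s1, hs1⟩ := ihn i hi
        obtain ⟨s2, hs2⟩ := ih2 _ y hy
        refine ⟨max s1 s2, fun z' hz => ?_⟩
        simp only [Part.bind_eq_bind, Part.mem_bind_iff]
        exact ⟨i, hs1 z' (hz.mono (le_max_left _ _)), hs2 z' (hz.mono (le_max_right _ _))⟩
    intro y h
    exact key (Nat.unpair p).1 (Nat.unpair p).2 y h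
  | rfind c ih =>
    intro a y h
    have h1 : y ∈ Nat.rfind fun n => (fun m => decide (m = 0)) <$> ev z c (Nat.pair a n) := h
    rw [Nat.mem_rfind] at h1
    obtain ⟨h1, h2⟩ := h1
    have h2' : ∀ m < y, ∃ s, ∀ z', Agr s z z' →
        false ∈ ((fun m => decide (m = 0)) <$> ev z' c (Nat.pair a m) : Part Bool) := by
      intro m hm
      have := h2 hm
      simp only [Part.map_eq_map, Part.mem_map_iff] at this
      obtain ⟨v, hv, hv'⟩ := this
      obtain ⟨s, hs⟩ := ih _ v hv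
      refine ⟨s, fun z' hz => ?_⟩
      simp only [Part.map_eq_map, Part.mem_map_iff]
      exact ⟨v, hs z' hz, hv'⟩
    simp only [Part.map_eq_map, Part.mem_map_iff] at h1
    obtain ⟨v, hv, hv'⟩ := h1
    obtain ⟨s0, hs0⟩ := ih _ v hv
    choose! S hS using h2'
    refine ⟨max s0 ((Finset.range y).sup S), fun z' hz => ?_⟩
    show y ∈ Nat.rfind fun n => (fun m => decide (m = 0)) <$> ev z' c (Nat.pair a n)
    rw [Nat.mem_rfind]
    refine ⟨?_, fun {m} hm => ?_⟩
    · simp only [Part.map_eq_map, Part.mem_map_iff]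
      exact ⟨v, hs0 z' (hz.mono (le_max_left _ _)), hv'⟩
    · exact hS m hm z' (hz.mono (le_trans (Finset.le_sup (Finset.mem_range.2 hm))
        (le_max_right _ _)))

end Pool.Agent.Run7.h930.MB
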