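import Mathlib
import Pool.Agent.Run7.h930.MB.Codes

set_option autoImplicit false

/-! A closed subset of Baire space not Muchnik equivalent to a closed subset of Cantor space. -/

namespace Pool.Agent.Run7.h930.MB

section top
variable {ι β : Type} [TopologicalSpace β] [DiscreteTopology β]

lemma open_agree {U : Set (ι → β)} (hU : IsOpen U) {R : ι → β} (hR : R ∈ U) :
    ∃ F : Finset ι, ∀ R' : ι → β, (∀ s ∈ F, R' s = R s) → R' ∈ U := by
  obtain ⟨I, u, h1, h2⟩ := isOpen_pi_iff.1 hU R hR
  refine ⟨I, fun R' h => h2 ?_⟩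
  intro i hi
  rw [h i hi]
  exact (h1 i hi).2

lemma isOpen_of_agree {U : Set (ι → β)}
    (h : ∀ R ∈ U, ∃ F : Finset ι, ∀ R' : ι → β, (∀ s ∈ F, R' s = R s) → R' ∈ U) : IsOpen U := by
  rw [isOpen_pi_iff]
  intro R hR
  obtain ⟨F, hF⟩ := h R hR
  refine ⟨F, fun i => {R i}, fun i _ => ⟨isOpen_discrete _, rfl⟩, fun R' hR' => hF R' ?_⟩
  intro s hs
  exact hR' s hs

end top

/-- initial segments -/
def ini {α : Type} (f : ℕ → α) (n : ℕ) : List α := (List.range n).map f

@[simp] lemma length_ini {α : Type} (f : ℕ → α) (n : ℕ) : (ini f n).length = n := by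
  simp [ini]

@[simp] lemma getElem_ini {α : Type} (f : ℕ → α) (n i : ℕ) (h : i < (ini f n).length) :
    (ini f n)[i] = f i := by
  simp [ini]

lemma take_ini {α : Type} (f : ℕ → α) (n k : ℕ) (h : k ≤ n) : (ini f n).take k = ini f k := by
  apply List.ext_getElem
  · simp [h]
  · intro i h1 h2
    simp

lemma ini_succ {α : Type} (f : ℕ → α) (n : ℕ) : ini f (n + 1) = ini f n ++ [f n] := by
  simp [ini, List.range_succ]

lemma ini_prefix {α : Type} (f : ℕ → α) {n k : ℕ} (h : k ≤ n) : ini f k <+: ini f n := by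
  rw [← take_ini f n k h]
  exact List.take_prefix _ _

/-- `z` extends `w` -/
def Ext (w : List ℕ) (z : ℕ → ℕ) : Prop := ∀ i (h : i < w.length), z i = w[i]

lemma Ext.pre {w w' : List ℕ} {z : ℕ → ℕ} (h : Ext w' z) (hp : w <+: w') : Ext w z := by
  intro i hi
  rw [h i (lt_of_lt_of_le hi hp.length_le)]
  exact (hp.getElem hi).symm

lemma Ext.agr {z z' : ℕ → ℕ} {s : ℕ} (h : Ext (ini z s) z') : Agr s z z' := by
  intro i hi
  rw [h i (by simpa using hi)]
  simp

lemma Ext.ini_eq {w : List ℕ} {z : ℕ → ℕ} (h : Ext w z) : ini z w.length = w := by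
  apply List.ext_getElem
  · simp
  · intro i h1 h2
    simp [h i h2]

lemma exists_ext (w : List ℕ) : ∃ z, Ext w z := by
  refine ⟨fun i => w.getD i 0, fun i hi => ?_⟩
  simp [hi]

/-- halving -/
def hv (w : List ℕ) : List ℕ := w.map (· / 2)

@[simp] lemma length_hv (w : List ℕ) : (hv w).length = w.length := by simp [hv]

lemma hv_prefix {w w' : List ℕ} (h : w <+: w') : hv w <+: hv w' := h.map _

/-- consistency of a string with the predicate `R` -/
def Cs (R : List ℕ → Bool) (w : List ℕ) : Prop :=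
  ∀ i (h : i < w.length), w[i] % 2 = (R (hv (w.take (i + 1)))).toNat

/-- the closed set -/
def PR (R : List ℕ → Bool) : Set (ℕ → ℕ) :=
  {z | ∀ n, z n % 2 = (R (hv (ini z (n + 1)))).toNat}

lemma PR_closed (R : List ℕ → Bool) : IsClosed (PR R) := by
  rw [← isOpen_compl_iff]
  apply isOpen_of_agree
  intro z hz
  simp only [PR, Set.mem_compl_iff, Set.mem_ofPred_eq, not_forall] at hz
  obtain ⟨n, hn⟩ := hz
  refine ⟨Finset.range (n + 1), fun z' hz' => ?_⟩
  simp only [PR, Set.mem_compl_iff, Set.mem_ofPred_eq, not_forall]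
  refine ⟨n, ?_⟩
  have h1 : ini z' (n + 1) = ini z (n + 1) := by
    apply List.ext_getElem
    · simp
    · intro i h1 h2
      simp only [length_ini] at h1
      simp [hz' i (Finset.mem_range.2 h1)]
  rw [h1, hz' n (by simp)]
  exact hn

lemma Cs_ini {R : List ℕ → Bool} {z : ℕ → ℕ} (hz : z ∈ PR R) (n : ℕ) : Cs R (ini z n) := by
  intro i hi
  rw [getElem_ini, take_ini _ _ _ (by simpa using hi)]
  exact hz i

lemma Cs.pre {R : List ℕ → Bool} {w w' : List ℕ} (h : Cs R w') (hp : w <+: w') : Cs R w := by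
  intro i hi
  have h1 := h i (lt_of_lt_of_le hi hp.length_le)
  rw [← hp.getElem hi] at h1
  rw [h1]
  have : w.take (i + 1) = w'.take (i + 1) := by
    obtain ⟨t, rfl⟩ := hp
    rw [List.take_append_of_le_length (by omega)]
  rw [this]

/-- the point of `PR R` given by `a` -/
def zz (R : List ℕ → Bool) (a : ℕ → ℕ) (n : ℕ) : ℕ := 2 * a n + (R (ini a (n + 1))).toNat

lemma Bool.toNat_le (b : Bool) : b.toNat ≤ 1 := by cases b <;> simp

lemma hv_ini_zz (R : List ℕ → Bool) (a : ℕ → ℕ) (n : ℕ) : hv (ini (zz R a) n) = ini a n := by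
  apply List.ext_getElem
  · simp
  · intro i h1 h2
    simp only [hv, List.getElem_map, getElem_ini, zz]
    have := Bool.toNat_le (R (ini a (i + 1)))
    omega

lemma zz_mem (R : List ℕ → Bool) (a : ℕ → ℕ) : zz R a ∈ PR R := by
  intro n
  rw [hv_ini_zz]
  simp only [zz]
  have := Bool.toNat_le (R (ini a (n + 1)))
  omega

lemma zz_ext {R : List ℕ → Bool} {τ : List ℕ} (h : Cs R τ) {a : ℕ → ℕ}
    (ha : ∀ i (hi : i < τ.length), a i = τ[i] / 2) : Ext τ (zz R a) := by
  intro i hi
  have h1 : ini a (i + 1) = hv (τ.take (i + 1)) := by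
    apply List.ext_getElem
    · simp; omega
    · intro j h1 h2
      simp only [length_ini] at h1
      simp [hv, ha j (by omega)]
  simp only [zz]
  rw [h1, ← h i hi, ha i hi]
  omega

/-- determined outputs -/
def Outp (c : OC) (w : List ℕ) (u : List Bool) : Prop :=
  ∀ n (h : n < u.length), ∀ z, Ext w z → (u[n]).toNat ∈ ev z c n

lemma Outp.mono {c : OC} {w w' : List ℕ} {u : List Bool} (h : Outp c w u) (hp : w <+: w') :
    Outp c w' u := fun n hn z hz => h n hn z (hz.pre hp)

/-- the oracle version of an element of Cantor space -/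
def nb (q : ℕ → Bool) (n : ℕ) : ℕ := (q n).toNat

lemma outp_of {c : OC} {z : ℕ → ℕ} {q : ℕ → Bool} (h : ev z c = PFun.lift (nb q)) (m L : ℕ) :
    ∃ s, L ≤ s ∧ Outp c (ini z s) (ini q m) := by
  have h1 : ∀ n, ∃ s, ∀ z', Agr s z z' → nb q n ∈ ev z' c n := by
    intro n
    apply use z c n (nb q n)
    rw [h]
    simp [PFun.lift]
  choose S hS using h1
  refine ⟨max L ((Finset.range m).sup S), le_max_left _ _, fun n hn z' hz' => ?_⟩
  rw [getElem_ini]
  apply hS n z' (Agr.mono hz'.agr _)
  rw [length_ini] at hn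
  exact le_trans (Finset.le_sup (Finset.mem_range.2 hn)) (le_max_right _ _)

/-- modification lemma -/
lemma modif (R : List ℕ → Bool) (w : List ℕ) (k : ℕ) (F : Finset (List ℕ))
    (h1 : Cs R (w.take k)) (h2 : ∀ s ∈ F, ¬ (hv (w.take (k + 1)) <+: s)) :
    ∃ R' : List ℕ → Bool, (∀ s ∈ F, R' s = R s) ∧ Cs R' w := by
  classical
  refine ⟨fun s => if hv (w.take (k + 1)) <+: s then decide (w.getD (s.length - 1) 0 % 2 = 1)
    else R s, fun s hs => ?_, fun i hi => ?_⟩
  · simp only [h2 s hs, if_false]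
  · have hl : (hv (w.take (i + 1))).length = i + 1 := by simp; omega
    by_cases hp : hv (w.take (k + 1)) <+: hv (w.take (i + 1))
    · simp only [hp, if_true, hl, Nat.add_sub_cancel]
      have : w.getD i 0 = w[i] := by simp [hi]
      rw [this]
      rcases Nat.mod_two_eq_zero_or_one w[i] with h | h <;> simp [h]
    · simp only [hp, if_false]
      have hik : i < k := by
        by_contra hc
        apply hp
        apply hv_prefix
        exact List.take_prefix_take_left (by omega)
      have h3 := h1 i (by simp; omega)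
      simp only [List.getElem_take, List.take_take] at h3
      rw [h3, min_eq_left (by omega)]

lemma choose_j (F : Finset (List ℕ)) (b : List ℕ) :
    ∃ J, ∀ j, J ≤ j → ∀ s ∈ F, ¬ (b ++ [j] <+: s) := by
  refine ⟨F.sup (fun s => s.getD b.length 0) + 1, fun j hj s hs hp => ?_⟩
  have h1 : s.getD b.length 0 = j := by
    obtain ⟨t, rfl⟩ := hp
    simp
  have h2 : s.getD b.length 0 ≤ F.sup (fun s => s.getD b.length 0) :=
    Finset.le_sup (f := fun s : List ℕ => s.getD b.length 0) hs
  omega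

/-- the Baire category step -/
theorem baire_step (R : List ℕ → Bool) (Q : Set (ℕ → Bool))
    (h : ∀ x ∈ PR R, ∃ y ∈ Q, ∃ c, ev x c = PFun.lift (nb y)) :
    ∃ c σ, Cs R σ ∧ ∀ τ, σ <+: τ → Cs R τ → ∃ z, z ∈ PR R ∧ Ext τ z ∧
      ∃ q ∈ Q, ev z c = PFun.lift (nb q) := by
  have h1 : (⋃ c : OC, closure {a : ℕ → ℕ | ∃ q ∈ Q, ev (zz R a) c = PFun.lift (nb q)})
      = Set.univ := by
    apply Set.eq_univ_of_forall
    intro a
    obtain ⟨y, hy, c, hc⟩ := h (zz R a) (zz_mem R a)
    exact Set.mem_iUnion.2 ⟨c, subset_closure ⟨y, hy, hc⟩⟩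
  have : Nonempty OC := ⟨OC.zero⟩
  obtain ⟨c, a, ha⟩ := nonempty_interior_of_iUnion_of_closed (fun c => isClosed_closure) h1
  obtain ⟨F, hF⟩ := open_agree isOpen_interior ha
  set N := F.sup id + 1 with hN
  have hFN : ∀ s ∈ F, s < N := fun s hs => Nat.lt_succ_of_le (Finset.le_sup (f := id) hs)
  refine ⟨c, ini (zz R a) N, Cs_ini (zz_mem R a) N, fun τ hτ hc => ?_⟩
  -- a point extending `hv τ`
  set a' : ℕ → ℕ := fun i => (hv τ).getD i 0 with ha'
  have h2 : a' ∈ interior (closure {a : ℕ → ℕ | ∃ q ∈ Q, ev (zz R a) c = PFun.lift (nb q)}) := by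
    apply hF
    intro s hs
    have hs' := hFN s hs
    have hlen : N ≤ τ.length := by simpa using hτ.length_le
    have h3 : τ[s]'(by omega) = zz R a s := by
      rw [← hτ.getElem (by simpa using hs')]
      simp
    simp only [ha', hv]
    rw [List.getD_eq_getElem _ _ (by simp; omega)]
    simp only [List.getElem_map, h3, zz]
    have := Bool.toNat_le (R (ini a (s + 1)))
    omega
  have h3 := interior_subset h2
  rw [mem_closure_iff] at h3
  obtain ⟨a'', ha1, q, hq, hq'⟩ := h3 (PiNat.cylinder a' τ.length)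
    (PiNat.isOpen_cylinder (fun _ => ℕ) a' τ.length) (PiNat.self_mem_cylinder _ _)
  refine ⟨zz R a'', zz_mem R a'', zz_ext hc ?_, q, hq, hq'⟩
  intro i hi
  have := ha1 i hi
  rw [this]
  simp only [ha', hv]
  rw [List.getD_eq_getElem _ _ (by simpa using hi)]
  simp

/-- no long outputs above `w` -/
def BadL (c : OC) (w : List ℕ) : Prop :=
  ∃ m, ∀ w', w <+: w' → ∀ u : List Bool, u.length = m → ¬ Outp c w' u

def D1 (c : OC) (σ : List ℕ) : Set (List ℕ → Bool) :=
  {R | ∃ w, σ <+: w ∧ Cs R w ∧ BadL c w}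

def D2 (c : OC) (τ : List ℕ) (u : List Bool) : Set (List ℕ → Bool) :=
  {R | ∃ w, τ <+: w ∧ Cs R w ∧ Outp c w u}

lemma Cs_agree {R R' : List ℕ → Bool} {w : List ℕ} (h : Cs R w)
    (hR : ∀ s ∈ ((List.range w.length).map fun i => hv (w.take (i + 1))).toFinset, R' s = R s) :
    Cs R' w := by
  intro i hi
  rw [hR _ ?_]
  · exact h i hi
  · simp only [List.mem_toFinset, List.mem_map, List.mem_range]
    exact ⟨i, hi, rfl⟩

lemma D1_open (c : OC) (σ : List ℕ) : IsOpen (D1 c σ) := by
  apply isOpen_of_agree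
  rintro R ⟨w, h1, h2, h3⟩
  exact ⟨_, fun R' hR' => ⟨w, h1, Cs_agree h2 hR', h3⟩⟩

lemma D2_open (c : OC) (τ : List ℕ) (u : List Bool) : IsOpen (D2 c τ u) := by
  apply isOpen_of_agree
  rintro R ⟨w, h1, h2, h3⟩
  exact ⟨_, fun R' hR' => ⟨w, h1, Cs_agree h2 hR', h3⟩⟩

/-- infinitely branching outputs -/
def InfA (c : OC) (τ : List ℕ) (u : List Bool) : Prop :=
  ∀ J, ∃ j, J ≤ j ∧ ∃ w, τ <+: w ∧ (∃ h : τ.length < w.length, w[τ.length] / 2 = j) ∧ Outp c w u

lemma outp_unique {c : OC} {w : List ℕ} {u u' : List Bool} (h : Outp c w u) (h' : Outp c w u')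
    (hl : u.length ≤ u'.length) : u <+: u' := by
  obtain ⟨z, hz⟩ := exists_ext w
  rw [List.prefix_iff_eq_take]
  apply List.ext_getElem
  · simp [hl]
  · intro i h1 h2
    have e1 := h i h1 z hz
    have e2 := h' i (by omega) z hz
    have e3 := Part.mem_unique e1 e2
    simp only [List.getElem_take]
    cases hu : u[i] <;> cases hu' : u'[i] <;> simp [hu, hu'] at e3 ⊢

lemma infA_nil (c : OC) (τ : List ℕ) : InfA c τ [] := by
  intro J
  refine ⟨J, le_rfl, τ ++ [2 * J], List.prefix_append _ _, ⟨by simp, by simp⟩, ?_⟩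
  intro n hn
  simp at hn

lemma infA_step {c : OC} {τ : List ℕ} (hτ : ∀ w, τ <+: w → ¬ BadL c w) {u : List Bool}
    (hu : InfA c τ u) : ∃ b, InfA c τ (u ++ [b]) := by
  by_contra hcon
  push Not at hcon
  have hf := hcon false
  have ht := hcon true
  simp only [InfA, not_forall] at hf ht
  obtain ⟨J1, hJ1⟩ := hf
  obtain ⟨J2, hJ2⟩ := ht
  obtain ⟨j, hj, w, hw1, hw2, hw3⟩ := hu (max J1 J2)
  have hb := hτ w hw1
  simp only [BadL, not_exists, not_forall, not_not] at hb
  obtain ⟨w', hww', u', hu', ho⟩ := hb (u.length + 1)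
  have hp : u <+: u' := outp_unique (hw3.mono hww') ho (by omega)
  obtain ⟨t, rfl⟩ := hp
  have htl : t.length = 1 := by simp at hu'; omega
  obtain ⟨b, rfl⟩ := List.length_eq_one_iff.1 htl
  obtain ⟨hlt, hjv⟩ := hw2
  have hlt' : τ.length < w'.length := lt_of_lt_of_le hlt hww'.length_le
  have hjv' : w'[τ.length] / 2 = j := by rw [← hww'.getElem hlt]; exact hjv
  cases b
  · exact hJ1 ⟨j, le_trans (le_max_left _ _) hj, w', hw1.trans hww', ⟨hlt', hjv'⟩, ho⟩
  · exact hJ2 ⟨j, le_trans (le_max_right _ _) hj, w', hw1.trans hww', ⟨hlt', hjv'⟩, ho⟩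

lemma exists_branch {A : List Bool → Prop} (h0 : A []) (hs : ∀ u, A u → ∃ b, A (u ++ [b])) :
    ∃ q : ℕ → Bool, ∀ m, A (ini q m) := by
  classical
  choose! b hb using hs
  let U : ℕ → List Bool := fun k => Nat.rec [] (fun _ u => u ++ [b u]) k
  have hU : ∀ k, U (k + 1) = U k ++ [b (U k)] := fun k => rfl
  have hA : ∀ k, A (U k) := by
    intro k
    induction k with
    | zero => exact h0
    | succ k ih => rw [hU]; exact hb _ ih
  refine ⟨fun k => b (U k), fun m => ?_⟩
  have : ini (fun k => b (U k)) m = U m := by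
    induction m with
    | zero => rfl
    | succ m ih => rw [ini_succ, ih, hU]
  rw [this]
  exact hA m

open Classical in
/-- the branch attached to `(c, τ)` -/
noncomputable def qq (c : OC) (τ : List ℕ) : ℕ → Bool :=
  if h : ∃ q : ℕ → Bool, ∀ m, InfA c τ (ini q m) then h.choose else fun _ => false

lemma qq_spec {c : OC} {τ : List ℕ} (hτ : ∀ w, τ <+: w → ¬ BadL c w) :
    ∀ m, InfA c τ (ini (qq c τ) m) := by
  have h : ∃ q : ℕ → Bool, ∀ m, InfA c τ (ini q m) :=
    exists_branch (infA_nil c τ) (fun u hu => infA_step hτ hu)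
  unfold qq
  rw [dif_pos h]
  exact h.choose_spec

/-- genericity with respect to an open set -/
def Gen (U : Set (List ℕ → Bool)) (R : List ℕ → Bool) : Prop :=
  R ∈ U ∨ ∃ F : Finset (List ℕ), ∀ R' : List ℕ → Bool, (∀ s ∈ F, R' s = R s) → R' ∉ U

lemma gen_residual {U : Set (List ℕ → Bool)} (hU : IsOpen U) :
    ∀ᶠ R in residual (List ℕ → Bool), Gen U R := by
  have h1 : (U ∪ interior Uᶜ) ∈ residual (List ℕ → Bool) := by
    apply residual_of_dense_open (hU.union isOpen_interior)
    rw [dense_iff_inter_open]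
    intro V hV hVne
    by_cases h : (V ∩ U).Nonempty
    · obtain ⟨x, hx1, hx2⟩ := h
      exact ⟨x, hx1, Or.inl hx2⟩
    · obtain ⟨x, hx⟩ := hVne
      refine ⟨x, hx, Or.inr ?_⟩
      apply interior_maximal _ hV hx
      intro y hy hyU
      exact h ⟨y, hy, hyU⟩
  filter_upwards [h1] with R hR
  rcases hR with hR | hR
  · exact Or.inl hR
  · right
    obtain ⟨F, hF⟩ := open_agree isOpen_interior hR
    exact ⟨F, fun R' hR' hU' => interior_subset (hF R' hR') hU'⟩

lemma avoid_residual (x : ℕ → ℕ) : ∀ᶠ R in residual (List ℕ → Bool), x ∉ PR R := by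
  have h1 : {R : List ℕ → Bool | x ∉ PR R} ∈ residual (List ℕ → Bool) := by
    apply residual_of_dense_open
    · apply isOpen_of_agree
      intro R hR
      simp only [PR, Set.mem_ofPred_eq, not_forall] at hR
      obtain ⟨n, hn⟩ := hR
      refine ⟨{hv (ini x (n + 1))}, fun R' hR' => ?_⟩
      simp only [PR, Set.mem_ofPred_eq, not_forall]
      refine ⟨n, ?_⟩
      rw [hR' _ (by simp)]
      exact hn
    · rw [dense_iff_inter_open]
      rintro V hV ⟨R, hR⟩
      obtain ⟨F, hF⟩ := open_agree hV hR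
      set n := F.sup List.length with hn
      have hnF : hv (ini x (n + 1)) ∉ F := by
        intro hc
        have := Finset.le_sup (f := List.length) hc
        simp only [length_hv, length_ini] at this
        omega
      refine ⟨Function.update R (hv (ini x (n + 1))) (decide (x n % 2 = 0)), ?_, ?_⟩
      · apply hF
        intro s hs
        rw [Function.update_of_ne]
        rintro rfl
        exact hnF hs
      · simp only [PR, Set.mem_ofPred_eq, not_forall]
        refine ⟨n, ?_⟩
        rw [Function.update_self]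
        rcases Nat.mod_two_eq_zero_or_one (x n) with h | h <;> simp [h]
  exact h1

lemma lift_inj {f g : ℕ → ℕ} (h : PFun.lift f = PFun.lift g) : f = g := by
  funext n
  have := congrFun h n
  simpa [PFun.lift] using this

theorem exists_R : ∃ R : List ℕ → Bool, (∀ c σ, Gen (D1 c σ) R) ∧ (∀ c τ u, Gen (D2 c τ u) R) ∧
    ∀ c τ c' x, ev (nb (qq c τ)) c' = PFun.lift x → x ∉ PR R := by
  have h1 : ∀ᶠ R in residual (List ℕ → Bool), ∀ c σ, Gen (D1 c σ) R := by
    rw [eventually_countable_forall]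
    intro c
    rw [eventually_countable_forall]
    intro σ
    exact gen_residual (D1_open c σ)
  have h2 : ∀ᶠ R in residual (List ℕ → Bool), ∀ c τ u, Gen (D2 c τ u) R := by
    rw [eventually_countable_forall]
    intro c
    rw [eventually_countable_forall]
    intro τ
    rw [eventually_countable_forall]
    intro u
    exact gen_residual (D2_open c τ u)
  have h3 : ∀ᶠ R in residual (List ℕ → Bool), ∀ c τ c',
      ∀ x, ev (nb (qq c τ)) c' = PFun.lift x → x ∉ PR R := by
    rw [eventually_countable_forall]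
    intro c
    rw [eventually_countable_forall]
    intro τ
    rw [eventually_countable_forall]
    intro c'
    by_cases h : ∃ x, ev (nb (qq c τ)) c' = PFun.lift x
    · obtain ⟨x, hx⟩ := h
      filter_upwards [avoid_residual x] with R hR y hy
      rw [hx] at hy
      rw [← lift_inj hy]
      exact hR
    · apply Filter.Eventually.of_forall
      intro R x hx
      exact absurd ⟨x, hx⟩ h
  have h4 := (h1.and (h2.and h3))
  obtain ⟨R, hR⟩ := (dense_of_mem_residual h4).nonempty
  exact ⟨R, hR.1, hR.2.1, hR.2.2⟩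

theorem main : ∃ P : Set (ℕ → ℕ), IsClosed P ∧
      ∀ Q : Set (ℕ → Bool), IsClosed Q →
        ¬ ((∀ x ∈ P, ∃ y ∈ Q,
              TuringReducible (PFun.lift (fun n => (y n).toNat)) (PFun.lift x)) ∧
           (∀ y ∈ Q, ∃ x ∈ P,
              TuringReducible (PFun.lift x) (PFun.lift (fun n => (y n).toNat)))) := by
  obtain ⟨R, hG1, hG2, hG3⟩ := exists_R
  refine ⟨PR R, PR_closed R, ?_⟩
  rintro Q hQ ⟨hPQ, hQP⟩
  have hPQ' : ∀ x ∈ PR R, ∃ y ∈ Q, ∃ c, ev x c = PFun.lift (nb y) := by
    intro x hx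
    obtain ⟨y, hy, h⟩ := hPQ x hx
    exact ⟨y, hy, exists_code (RecursiveIn.iff_nat.1 h)⟩
  obtain ⟨c, σ, hσ, hA⟩ := baire_step R Q hPQ'
  -- R is not in D1
  have hD1 : R ∉ D1 c σ := by
    rintro ⟨w, hw1, hw2, m, hm⟩
    obtain ⟨z, hz, hzw, q, hq, hq'⟩ := hA w hw1 hw2
    obtain ⟨s, hs, ho⟩ := outp_of hq' m w.length
    refine hm (ini z s) ?_ _ (length_ini q m) ho
    rw [← hzw.ini_eq]
    exact ini_prefix z hs
  obtain ⟨F, hF⟩ := (hG1 c σ).resolve_left hD1
  obtain ⟨J, hJ⟩ := choose_j F (hv σ)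
  set τ : List ℕ := σ ++ [2 * J + (R (hv σ ++ [J])).toNat] with hτdef
  have hvτ : hv τ = hv σ ++ [J] := by
    simp only [hτdef, hv, List.map_append, List.map_cons, List.map_nil]
    have := Bool.toNat_le (R (List.map (fun x => x / 2) σ ++ [J]))
    congr 2
    omega
  have hστ : σ <+: τ := List.prefix_append _ _
  have hCτ : Cs R τ := by
    intro i hi
    rcases Nat.lt_or_ge i σ.length with h | h
    · have h1 := hσ i h
      rw [← hστ.getElem h, h1]
      congr 3
      rw [hτdef, List.take_append_of_le_length (by omega)]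
    · have hi' : i = σ.length := by
        simp [hτdef] at hi
        omega
      subst hi'
      have e1 : τ.take (σ.length + 1) = τ := by
        apply List.take_of_length_le
        simp [hτdef]
      rw [e1, hvτ]
      simp only [hτdef, List.getElem_concat_length]
      have := Bool.toNat_le (R (hv σ ++ [J]))
      omega
  have hτbad : ∀ w, τ <+: w → ¬ BadL c w := by
    intro w hw hbad
    have hk : w.take τ.length = τ := by
      rw [List.prefix_iff_eq_take] at hw
      exact hw.symm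
    obtain ⟨R', hR'1, hR'2⟩ := modif R w τ.length F (by rw [hk]; exact hCτ) (by
      intro s hs hp
      apply hJ J le_rfl s hs
      rw [← hvτ]
      refine (hv_prefix ?_).trans hp
      have h5 : w.take τ.length <+: w.take (τ.length + 1) :=
        List.take_prefix_take_left (by omega)
      rw [hk] at h5
      exact h5)
    exact hF R' hR'1 ⟨w, hστ.trans hw, hR'2, hbad⟩
  have hq := qq_spec hτbad
  -- the branch lies in Q
  have hqQ : qq c τ ∈ Q := by
    rw [← hQ.closure_eq, mem_closure_iff]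
    intro V hV hqV
    obtain ⟨F', hF'⟩ := open_agree hV hqV
    set m := F'.sup id + 1 with hm
    have hFm : ∀ s ∈ F', s < m := fun s hs => Nat.lt_succ_of_le (Finset.le_sup (f := id) hs)
    have hin : R ∈ D2 c τ (ini (qq c τ) m) := by
      rcases hG2 c τ (ini (qq c τ) m) with h | ⟨F2, hF2⟩
      · exact h
      · exfalso
        obtain ⟨J2, hJ2⟩ := choose_j F2 (hv τ)
        obtain ⟨j, hj, w, hw1, ⟨hlt, hjv⟩, hw3⟩ := hq m J2
        have hk : w.take τ.length = τ := by
          rw [List.prefix_iff_eq_take] at hw1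
          exact hw1.symm
        have hk1 : hv (w.take (τ.length + 1)) = hv τ ++ [j] := by
          rw [List.take_succ_eq_append_getElem hlt, hk]
          simp only [hv, List.map_append, List.map_cons, List.map_nil, hjv]
        obtain ⟨R', hR'1, hR'2⟩ := modif R w τ.length F2 (by rw [hk]; exact hCτ) (by
          intro s hs hp
          rw [hk1] at hp
          exact hJ2 j hj s hs hp)
        exact hF2 R' hR'1 ⟨w, hw1, hR'2, hw3⟩
    obtain ⟨w, hw1, hw2, hw3⟩ := hin
    obtain ⟨z, hz, hzw, q', hq'Q, hq'⟩ := hA w (hστ.trans hw1) hw2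
    refine ⟨q', hF' q' ?_, hq'Q⟩
    intro n hn
    have h1 := hw3 n (by simpa using hFm n hn) z hzw
    rw [getElem_ini, hq'] at h1
    simp only [PFun.lift, Part.mem_some_iff, nb] at h1
    revert h1
    cases qq c τ n <;> cases q' n <;> simp
  obtain ⟨x, hxP, hx⟩ := hQP _ hqQ
  obtain ⟨c', hc'⟩ := exists_code (RecursiveIn.iff_nat.1 hx)
  exact hG3 c τ c' x hc' hxP

end Pool.Agent.Run7.h930.MB
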